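import Pool.Agent.Y915.Dens

/-!
# Grothendieck's `p`-curvature conjecture with a positive proportion of exceptional primes

Let `A` be a domain étale over `ℤ[x]` with an integral point `e` above `x = 0`, `∂ = d/dx` and
`∇ = ∂ + C` a connection on `A^r`. Let `Y(x)` be its fundamental matrix at `e` with `Y(0) = 1`.
Suppose that the curve and the solutions are uniformized by the plane: there is a function
`x = φ(u)`, `φ(0) = 0`, `φ'(0) ≠ 0`, such that `φ(u)` and the entries of `Y(φ(u))` are meromorphic
in the plane, of orders at most `ρ₁` and `ρ₂`. This happens for connections on the line, regular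
singular connections on the multiplicative group (`φ = e^u - 1`), connections on proper curves of
genus `1`, and regular singular connections on Euclidean orbifolds, such as the line without two
points with local monodromies of orders dividing `(3,3,3)`, `(2,4,4)` or `(2,3,6)`.

Let `badSum x` be the sum of `log p / (p - 1)` over the primes `p ≤ x` with nonzero `p`-curvature.
It grows like `α log x` if these primes have density `α`.

* If `badSum x - log x / (ρ₁ + ρ₂)` tends to `-∞`, for example if the primes with nonzero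
  `p`-curvature have upper density less than `1 / (ρ₁ + ρ₂)`, then `∇` has a full set of algebraic
  solutions, so that in fact almost all `p`-curvatures vanish.
* If `badSum x - log x / (ρ₁ / d + ρ₂)` tends to `-∞`, where `ρ₁ ≤ ρ₁ / d + ρ₂`, then the ring
  generated by `x` and the entries of `Y` has transcendence degree at most `d` over `ℚ`; that is,
  the dimension of the differential Galois group is less than `d`.

The bounds are sharp (this is not proved here): for `(1 + x) ∂ + B`, where the eigenvalues of the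
integral matrix `B` are a normal basis of a number field of degree `d + 1`, one has `ρ₁ = ρ₂ = 1`,
the primes with nonzero `p`-curvature have density `d / (d + 1) = 1 / (ρ₁ / d + ρ₂)`, and the
transcendence degree is `d`.
-/

set_option autoImplicit false

namespace Pool.Agent.Results.MP_aa40d3_nt.DenseExceptionalPrimes

open scoped PowerSeries Polynomial

/-- The Taylor series `∑ e(∂^m g) / m! X^m` of `g` at the integral point `e`. -/
noncomputable def taylor {A : Type} [CommRing A] (D : Derivation ℤ A A) (e : A →+* ℤ) (g : A) :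
    ℚ⟦X⟧ :=
  PowerSeries.mk fun m => ((e (D^[m] g) : ℤ) : ℚ) / (m.factorial : ℚ)

/-- The connection `v ↦ ∂ v + C v` on `A ^ r`. -/
def conn {A : Type} [CommRing A] {r : ℕ} (D : Derivation ℤ A A) (C : Matrix (Fin r) (Fin r) A)
    (v : Fin r → A) : Fin r → A :=
  fun i => D (v i) + C.mulVec v i

/-- The `p`-curvature of the connection vanishes modulo `p` (here `∂ ^ p = 0` modulo `p`). -/
def PCurvZero {A : Type} [CommRing A] {r : ℕ} (D : Derivation ℤ A A)
    (C : Matrix (Fin r) (Fin r) A) (p : ℕ) : Prop :=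
  ∀ v : Fin r → A, ∃ w : Fin r → A, (conn D C)^[p] v = (p : ℤ) • w

/-- A full set of algebraic solutions: over an algebraic closure of the field of fractions, with
a derivation extending `∂`, there is an invertible matrix `Z` with `∂ Z + C Z = 0`. -/
def AlgSol {A : Type} [CommRing A] [IsDomain A] {r : ℕ} (D : Derivation ℤ A A)
    (C : Matrix (Fin r) (Fin r) A) : Prop :=
  ∃ (D' : AlgebraicClosure (FractionRing A) → AlgebraicClosure (FractionRing A))
    (Z : Matrix (Fin r) (Fin r) (AlgebraicClosure (FractionRing A))),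
    (∀ a b, D' (a + b) = D' a + D' b) ∧ (∀ a b, D' (a * b) = a * D' b + b * D' a) ∧
    (∀ g : A, D' (algebraMap A (AlgebraicClosure (FractionRing A)) g) =
      algebraMap A (AlgebraicClosure (FractionRing A)) (D g)) ∧
    IsUnit Z ∧ Z.map D' + C.map (algebraMap A (AlgebraicClosure (FractionRing A))) * Z = 0

/-- `D = d/dx`, the point `e` lies above `x = 0`, and `Y` is the solution of `∂ Y + C Y = 0` in
power series in `x` at the point `e` with `Y(0) = 1`. -/
structure Formal {A : Type} [CommRing A] [Algebra ℤ[X] A] {r : ℕ} (D : Derivation ℤ A A)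
    (e : A →+* ℤ) (C : Matrix (Fin r) (Fin r) A) (Y : Matrix (Fin r) (Fin r) ℚ⟦X⟧) : Prop where
  dx : D (algebraMap ℤ[X] A Polynomial.X) = 1
  ex : e (algebraMap ℤ[X] A Polynomial.X) = 0
  one : Y.map PowerSeries.constantCoeff = 1
  eq : ∀ i j, PowerSeries.derivative ℚ (Y i j) = -∑ l, taylor D e (C i l) * Y l j

/-- entire functions of order at most `ρ`, finite type for the order `ρ`, by power series -/
def EntireOfOrder (ρ : ℝ) (G : ℂ⟦X⟧) : Prop :=
  ∃ c : ℝ, ∀ r : ℝ, 1 ≤ r → ∀ m : ℕ, ‖PowerSeries.coeff m G‖ * r ^ m ≤ Real.exp (c * r ^ ρ)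

/-- meromorphic functions `h = H / G` in the plane, `G` and `H` entire of order at most `ρ`,
`G(0) = 1` -/
def MeromorphicOfOrder (ρ : ℝ) (h : ℂ⟦X⟧) : Prop :=
  ∃ G : ℂ⟦X⟧, PowerSeries.constantCoeff G = 1 ∧ EntireOfOrder ρ G ∧ EntireOfOrder ρ (G * h)

/-- `φ(u)` is meromorphic in the plane of order at most `ρ₁`, `φ(0) = 0`, `φ'(0) ≠ 0`, and the
functions `Y i j (φ(u))` are meromorphic in the plane of order at most `ρ₂`. -/
structure Uniformized {r : ℕ} (Y : Matrix (Fin r) (Fin r) ℚ⟦X⟧) (φ : ℂ⟦X⟧) (ρ₁ ρ₂ : ℝ) :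
    Prop where
  const : PowerSeries.constantCoeff φ = 0
  unram : PowerSeries.coeff 1 φ ≠ 0
  mer : MeromorphicOfOrder ρ₁ φ
  sol : ∀ i j, MeromorphicOfOrder ρ₂ ((PowerSeries.map (algebraMap ℚ ℂ) (Y i j)).subst φ)

open Classical in
/-- the sum of `log p / (p - 1)` over the primes `p ≤ x` with nonzero `p`-curvature -/
noncomputable def badSum {A : Type} [CommRing A] {r : ℕ} (D : Derivation ℤ A A)
    (C : Matrix (Fin r) (Fin r) A) (x : ℕ) : ℝ :=
  ∑ p ∈ (Finset.range (x + 1)).filter (fun p => p.Prime ∧ ¬ PCurvZero D C p),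
    Real.log p / ((p : ℝ) - 1)

/-- Let `A` be a domain étale over `ℤ[x]`, `e` an integral point above `x = 0`, `∂ + C` a
connection of rank `r` on `A` with the fundamental matrix `Y` at `e`, and let `φ(u)` and `Y(φ(u))`
be meromorphic in the plane of orders at most `ρ₁`, `ρ₂`. Let `d ≥ 1` and
`s = ρ₁ / d + ρ₂ ≥ ρ₁`. If the sum of `log p / (p - 1)` over the primes `p ≤ x` with nonzero
`p`-curvature, minus `log x / s`, tends to `-∞` for `x → ∞`, then the `ℚ`-algebra generated by `x`
and the entries of `Y` has transcendence degree at most `d` over `ℚ` (so the entries of `Y` have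
transcendence degree less than `d` over `ℚ(x)`), and for `d = 1` the connection has a full set of
algebraic solutions. -/
theorem result (A : Type) [CommRing A] [IsDomain A] [Algebra ℤ[X] A] [Algebra.Etale ℤ[X] A]
    (D : Derivation ℤ A A) (e : A →+* ℤ) (r : ℕ) (C : Matrix (Fin r) (Fin r) A)
    (Y : Matrix (Fin r) (Fin r) ℚ⟦X⟧) (φ : ℂ⟦X⟧) (ρ₁ ρ₂ s : ℝ) (d : ℕ) :
    Formal D e C Y → Uniformized Y φ ρ₁ ρ₂ → 0 < d → 0 < ρ₁ → 0 < ρ₂ →
    s = ρ₁ / d + ρ₂ → ρ₁ ≤ s →
    (∀ K : ℝ, ∃ x₀ : ℕ, ∀ x : ℕ, x₀ ≤ x → badSum D C x ≤ 1 / s * Real.log x - K) →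
    Algebra.trdeg ℚ (Algebra.adjoin ℚ (insert (PowerSeries.X : ℚ⟦X⟧)
      (Set.range fun t : Fin r × Fin r => Y t.1 t.2))) ≤ d ∧
    (d = 1 → AlgSol D C) := by
  intro hF hU hd hρ₁ hρ₂ hs hρ hb
  subst hs
  have hY : ∀ i j, Pool.Agent.Y915.Uni.MerOrd ρ₂
      (Pool.Agent.Y915.Psi φ hU.const (Y i j)) := by
    intro i j
    have h1 : Pool.Agent.Y915.Psi φ hU.const (Y i j) =
        (PowerSeries.map (algebraMap ℚ ℂ) (Y i j)).subst φ :=
      Pool.Agent.Y915.sub_apply φ hU.const _
    rw [h1]
    exact hU.sol i j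
  have key := Pool.Agent.Y915.Dens.main hF.dx hF.ex hF.one hF.eq hU.const hU.unram hρ₁ hρ₂ hU.mer
    hY hd hρ fun K => hb K
  exact ⟨Pool.Agent.Y915.Dens.trdeg_le key.1, key.2⟩

end Pool.Agent.Results.MP_aa40d3_nt.DenseExceptionalPrimes
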