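import Pool.Agent.Y915.Cur4

set_option autoImplicit false

/-!
# Grothendieck's `p`-curvature conjecture near the trivial connection on étale curves over `ℤ[x]`
-/

namespace Pool.Agent.Results.MP_aa40d3_nt.EtaleCurveNeighbourhoods

open scoped PowerSeries Polynomial

/-- The power series converges in the open unit disc. -/
def Conv (f : ℂ⟦X⟧) : Prop :=
  ∀ ρ : ℝ, 0 < ρ → ρ < 1 → ∃ B : ℝ, ∀ m : ℕ, ‖PowerSeries.coeff m f‖ * ρ ^ m ≤ B

/-- The Taylor series `∑ e(∂^m g) / m! X^m` of `g` at the integral point `e`. -/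
noncomputable def taylor {A : Type} [CommRing A] (D : Derivation ℤ A A) (e : A →+* ℤ) (g : A) :
    ℂ⟦X⟧ :=
  PowerSeries.mk fun m => ((e (D^[m] g) : ℤ) : ℂ) / (m.factorial : ℂ)

/-- The connection `v ↦ ∂ v + C v` on `A ^ r`. -/
def conn {A : Type} [CommRing A] {r : ℕ} (D : Derivation ℤ A A) (C : Matrix (Fin r) (Fin r) A)
    (v : Fin r → A) : Fin r → A :=
  fun i => D (v i) + C.mulVec v i

/-- The `p`-curvature of the connection vanishes modulo `p` (here `∂ ^ p = 0` modulo `p`). -/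
def PCurvZero {A : Type} [CommRing A] {r : ℕ} (D : Derivation ℤ A A)
    (C : Matrix (Fin r) (Fin r) A) (p : ℕ) : Prop :=
  ∀ v : Fin r → A, ∃ w : Fin r → A, (conn D C)^[p] v = (p : ℤ) • w

/-- A full set of algebraic solutions: over an algebraic closure of the field of fractions, with
a derivation extending `∂`, there is an invertible matrix `Z` with `∂ Z + C Z = 0`. -/
def AlgSol {A : Type} [CommRing A] [IsDomain A] {r : ℕ} (D : Derivation ℤ A A)
    (C : Matrix (Fin r) (Fin r) A) : Prop :=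
  ∃ (D' : AlgebraicClosure (FractionRing A) → AlgebraicClosure (FractionRing A))
    (Z : Matrix (Fin r) (Fin r) (AlgebraicClosure (FractionRing A))),
    (∀ a b, D' (a + b) = D' a + D' b) ∧ (∀ a b, D' (a * b) = a * D' b + b * D' a) ∧
    (∀ g : A, D' (algebraMap A (AlgebraicClosure (FractionRing A)) g) =
      algebraMap A (AlgebraicClosure (FractionRing A)) (D g)) ∧
    IsUnit Z ∧ Z.map D' + C.map (algebraMap A (AlgebraicClosure (FractionRing A))) * Z = 0

/-- `D = d/dx`, the point `e` lies above `x = 0`, and `φ` is a power series convergent in the unit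
disc, `φ(0) = 0`, such that the pull back of `C dx` along `x = φ` converges in the unit disc. -/
structure Disc {A : Type} [CommRing A] [Algebra ℤ[X] A] {r : ℕ} (D : Derivation ℤ A A)
    (e : A →+* ℤ) (C : Matrix (Fin r) (Fin r) A) (φ : ℂ⟦X⟧) : Prop where
  dx : D (algebraMap ℤ[X] A Polynomial.X) = 1
  ex : e (algebraMap ℤ[X] A Polynomial.X) = 0
  const : PowerSeries.constantCoeff φ = 0
  conv : Conv φ
  hol : ∀ i j, Conv (PowerSeries.derivative ℂ φ * PowerSeries.subst φ (taylor D e (C i j)))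

/-- The criterion, and the uniform neighbourhoods of the trivial connection. -/
theorem result :
    (∀ (A : Type) [CommRing A] [IsDomain A] [Algebra ℤ[X] A] [Algebra.Etale ℤ[X] A]
      (D : Derivation ℤ A A) (e : A →+* ℤ) (r : ℕ) (M : ℤ) (C : Matrix (Fin r) (Fin r) A)
      (φ : ℂ⟦X⟧) (k : ℕ → ℕ) (t : ℝ), Disc D e C φ → M ≠ 0 → PowerSeries.coeff 1 φ ≠ 0 →
      (∀ p : ℕ, p.Prime → k p = 0 ∨ (k p = 1 ∧ PCurvZero D (M • C) p) ∨
        (p : ℤ) ^ (∑ i ∈ Finset.range (k p), p ^ i) ∣ M) →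
      (∀ m : ℕ, ∑ p ∈ (Finset.range (m + 1)).filter Nat.Prime,
        Real.log p / ((p : ℝ) ^ k p * ((p : ℝ) - 1)) ≤ t) →
      t < Real.log ‖PowerSeries.coeff 1 φ‖ → AlgSol D (M • C)) ∧
    (∀ δ : ℝ, 0 < δ → ∃ M₀ : ℕ, 0 < M₀ ∧
      ∀ (A : Type) [CommRing A] [IsDomain A] [Algebra ℤ[X] A] [Algebra.Etale ℤ[X] A]
        (D : Derivation ℤ A A) (e : A →+* ℤ) (r : ℕ) (M : ℤ) (C : Matrix (Fin r) (Fin r) A)
        (φ : ℂ⟦X⟧), Disc D e C φ → M ≠ 0 → (M₀ : ℤ) ∣ M →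
        (∀ S : Finset ℕ, (∀ p ∈ S, p.Prime ∧ ¬ (p : ℤ) ∣ M ∧ ¬ PCurvZero D (M • C) p) →
          ∑ p ∈ S, Real.log p / p ≤ Real.log ‖PowerSeries.coeff 1 φ‖ - δ) →
        AlgSol D (M • C)) := by
  refine ⟨?_, ?_⟩
  · intro A _ _ _ _ D e r M C φ k t hU hM h1 hk hsum hlt
    exact Pool.Agent.Y915.Cur.critEt ⟨hU.dx, hU.ex, hU.const, hU.conv, hU.hol⟩ hM h1 hlt hk hsum
  · intro δ hδ
    obtain ⟨M₀, h0, H⟩ := Pool.Agent.Y915.Cur.uniformEt hδ
    exact ⟨M₀, h0, fun A _ _ _ _ D e r M C φ hU hM hdvd hS =>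
      H A D e r M C φ ⟨hU.dx, hU.ex, hU.const, hU.conv, hU.hol⟩ hM hdvd hS⟩

end Pool.Agent.Results.MP_aa40d3_nt.EtaleCurveNeighbourhoods
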