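import Pool.Agent.Y227.SO.Density

set_option autoImplicit false

open Polynomial Pool.Agent.W432.WB Pool.Agent.W432.TC Pool.Agent.W432.HK Pool.Agent.Y227.SS
open Pool.Agent.Y227.SO

namespace Pool.Agent.Results.MP_aa40d3_nt.StableDensity

/-- A uniform density theorem for operators of arbitrary order with any number of singular points
and with arbitrary accessory parameters.

For all `m, n ≥ 1` there are a positive number `ε` and finitely many connected torsion cosets in
the torus of exponents, each satisfying the Fuchs relation and of codimension at least `n + 1` (so
at least `n` modulo the Fuchs relation), and with all their real points satisfying the Weyl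
inequalities and being the weights of a semistable parabolic bundle of parabolic degree zero, such
that the following holds for every operator `L = ∑ b k ∂ ^ k` of order `n` with integral polynomial
coefficients and all `m`-tuples `α` of algebraic numbers.

(1) Assume that `L` is Fuchsian with finite singular points among the distinct `α j`, with rational
exponents `lam`, `phi` of common denominator `N`. Then either there is a set of at least `ε φ(N)`
residue classes of primes modulo `N` such that for all large `p` in these classes the reduction of
`L` modulo `p` does not have a full basis of rational solutions, or the following two statements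
hold: (a) for every `a` prime to `N` the conjugate exponents `a * lam`, `a * phi` satisfy the Weyl
inequalities and are the weights of a semistable parabolic bundle of parabolic degree zero on the
projective line over `ℂ`, and of a stable one if `L` is irreducible; (b) `L` has a full basis of
algebraic solutions or its exponents lie on one of the cosets.

(2) Assume that the zeros of `b n ≠ 0` are among the distinct `α j` and that for arbitrarily large
`X` there are fewer than `ε π(X)` primes `p ≤ X` for which the reduction of `L` modulo `p` does not
have a full basis of rational solutions. Then `L` is Fuchsian with rational exponents, and (a) and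
(b) hold. -/
theorem result (m n : ℕ) (hm : 1 ≤ m) (hn : 1 ≤ n) :
    ∃ (ε : ℝ) (𝒟 : Finset (TorsionCoset m n)), 0 < ε ∧
      (∀ C ∈ 𝒟, C.Connected ∧ traceRelation m n ∈ C.relations ∧ C.CodimGe (n + 1) ∧
        ∀ z, C.Mem z → WeylBoth z ∧
          SemistableWeights ℂ (fun j l => z (Sum.inl (j, l))) (fun l => z (Sum.inr l))) ∧
      ∀ (b : Fin (n + 1) → ℤ[X]) (α : Fin m → AlgebraicClosure ℚ),
        (∀ lam phi N, FuchsianWith b α lam phi → CommonDen lam phi N → BadPrimes b N ε ∨
          (ConjGood b lam phi N ∧ (FullAlg b ∨ ∃ C ∈ 𝒟, C.Mem (expVec lam phi)))) ∧
        (ZerosAmong b α → FewBad b ε → ∃ lam phi, FuchsianWith b α lam phi ∧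
          (∃ N, CommonDen lam phi N) ∧ (∀ N, CommonDen lam phi N → ConjGood b lam phi N) ∧
          (FullAlg b ∨ ∃ C ∈ 𝒟, C.Mem (expVec lam phi))) :=
  density m n hm hn

end Pool.Agent.Results.MP_aa40d3_nt.StableDensity
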