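import Pool.Agent.Y227.SO.Final

set_option autoImplicit false

open Polynomial Pool.Agent.W432.WB Pool.Agent.W432.HK Pool.Agent.Y227.SS Pool.Agent.Y227.SO

namespace Pool.Agent.Results.MP_aa40d3_nt.StableExponents

/-- Full bases of rational solutions modulo `p` and (semi)stable parabolic bundles with the
conjugate exponents, for operators of arbitrary order with any number of singular points and with
arbitrary accessory parameters.

Let `L = ∑ b k ∂ ^ k` be an operator of order `n ≥ 1` with integral polynomial coefficients and let
`α j`, `j = 1, …, m`, be distinct algebraic numbers, `m ≥ 1`.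

(1) Assume that `L` is Fuchsian with finite singular points among the `α j`, with the rational
exponents `lam j l` at `α j` and the rational degrees `phi l` of the solutions at infinity (the
negatives of the exponents there), with common denominator `N`; let `a` be an integer. Suppose that
the numbers `a * lam j l`, `a * phi l` are not the weights, modulo the integers, of a semistable
parabolic bundle of rank `n` and of parabolic degree zero on the projective line over `ℂ` with `m`
finite parabolic points and infinity, or that `L` is irreducible over the algebraic numbers and they
are not the weights of a stable one. Then for all large primes `p` with `a p = -1` modulo `N` the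
reduction of `L` modulo `p` does not have a full basis of rational solutions.

(2) Consequently, if `b n ≠ 0`, the zeros of `b n` are among the `α j`, and the reductions of `L`
have a full basis of rational solutions for almost all primes, then `L` is Fuchsian with rational
exponents `lam`, `phi` and for every common denominator `N` of them and every `a` prime to `N` the
conjugate exponents `a * lam`, `a * phi` are the weights of a semistable parabolic bundle of
parabolic degree zero over `ℂ`, and of a stable one when `L` is irreducible over the algebraic
numbers. -/
theorem result {m n : ℕ} (hm : 1 ≤ m) (hn : 1 ≤ n) (b : Fin (n + 1) → ℤ[X])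
    (α : Fin m → AlgebraicClosure ℚ) :
    (∀ (lam : Fin m → Fin n → ℚ) (phi : Fin n → ℚ) (N : ℕ) (a : ℤ), FuchsianWith b α lam phi →
      CommonDen lam phi N →
      (¬ SemistableWeights ℂ (fun j l => (a : ℝ) * lam j l) (fun l => (a : ℝ) * phi l) ∨
        (¬ Reducible b ∧
          ¬ StableWeights ℂ (fun j l => (a : ℝ) * lam j l) (fun l => (a : ℝ) * phi l))) →
      ∃ P₀ : ℕ, ∀ p : ℕ, P₀ < p → (N : ℤ) ∣ a * p + 1 → ∀ _hp : Fact p.Prime, ¬ FullMod b p) ∧
    (ZerosAmong b α → Cond b →
      ∃ (lam : Fin m → Fin n → ℚ) (phi : Fin n → ℚ), FuchsianWith b α lam phi ∧
        (∃ N, CommonDen lam phi N) ∧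
        ∀ (N : ℕ) (a : ℤ), CommonDen lam phi N → IsCoprime a (N : ℤ) →
          SemistableWeights ℂ (fun j l => (a : ℝ) * lam j l) (fun l => (a : ℝ) * phi l) ∧
          (¬ Reducible b →
            StableWeights ℂ (fun j l => (a : ℝ) * lam j l) (fun l => (a : ℝ) * phi l))) :=
  stable_exponents hm hn b α

end Pool.Agent.Results.MP_aa40d3_nt.StableExponents
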